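import Mathlib

set_option autoImplicit false

namespace Pool.Agent.H968.NJ

universe u

variable {A : Type u} [CStarAlgebra A] [PartialOrder A] [StarOrderedRing A]

def Idl (J : Set A) : Prop :=
  (0 : A) ∈ J ∧ (∀ x ∈ J, ∀ y ∈ J, x + y ∈ J) ∧ (∀ x ∈ J, ∀ a : A, a * x ∈ J ∧ x * a ∈ J) ∧
    IsClosed J

def Prm (J : Set A) : Prop := ∀ a ∈ J, ∀ b ∈ J, a ≠ 0 → b ≠ 0 → ∃ y : A, a * y * b ≠ 0

theorem two_pts (J : Set A) (hJ : Idl J) (hP : Prm J) (c : A) (hc : c ∈ J) (hc0 : 0 ≤ c)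
    (s t : ℝ) (hs : s ∈ spectrum ℝ c) (ht : t ∈ spectrum ℝ c) (h0 : 0 < s) (hst : s < t) :
    ∃ (x : A) (M : ℝ), 0 < M ∧ x ≠ 0 ∧ x * x = 0 ∧ star x * x ≤ M • c ∧ x * star x ≤ M • c := by
  have hne : Nontrivial A := by
    by_contra h
    rw [not_nontrivial_iff_subsingleton] at h
    rw [spectrum.of_subsingleton] at hs
    exact hs
  have hsa : IsSelfAdjoint c := IsSelfAdjoint.of_nonneg hc0
  set m : ℝ := (s + t) / 2 with hm
  let kf : ℝ → ℝ := fun r => max 0 (m - r)
  let kg : ℝ → ℝ := fun r => max 0 (r - m)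
  have hkf : Continuous kf := by fun_prop
  have hkg : Continuous kg := by fun_prop
  let f : ℝ → ℝ := fun r => r * kf r
  let g : ℝ → ℝ := fun r => r * kg r
  have hf : Continuous f := by fun_prop
  have hg : Continuous g := by fun_prop
  let F : A := cfc f c
  let G : A := cfc g c
  have hFJ : F ∈ J := by
    have : F = c * cfc kf c := by
      show cfc f c = _
      rw [cfc_mul (fun r => r) kf c (by fun_prop) hkf.continuousOn, cfc_id' ℝ c]
    rw [this]; exact (hJ.2.2.1 c hc _).2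
  have hGJ : G ∈ J := by
    have : G = c * cfc kg c := by
      show cfc g c = _
      rw [cfc_mul (fun r => r) kg c (by fun_prop) hkg.continuousOn, cfc_id' ℝ c]
    rw [this]; exact (hJ.2.2.1 c hc _).2
  have hFs : IsSelfAdjoint F := cfc_predicate f c
  have hGs : IsSelfAdjoint G := cfc_predicate g c
  have hGF : G * F = 0 := by
    show cfc g c * cfc f c = 0
    rw [← cfc_mul g f c hg.continuousOn hf.continuousOn]
    have : (fun r => g r * f r) = fun _ => (0 : ℝ) := by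
      funext r
      simp only [g, f, kf, kg]
      rcases le_total r m with h | h
      · rw [max_eq_left (by linarith : r - m ≤ 0)]; ring
      · rw [max_eq_left (by linarith : m - r ≤ 0)]; ring
    rw [this, cfc_const_zero]
  have hne0 : ∀ (k : ℝ → ℝ), Continuous k → (∃ r ∈ spectrum ℝ c, k r ≠ 0) → cfc k c ≠ 0 := by
    rintro k hk ⟨r, hr, hkr⟩ h
    have h1 : k r ∈ spectrum ℝ (cfc k c) := by
      rw [cfc_map_spectrum k c hsa hk.continuousOn]
      exact ⟨r, hr, rfl⟩
    rw [h, spectrum.zero_eq] at h1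
    exact hkr h1
  have hF0 : F ≠ 0 := hne0 f hf ⟨s, hs, by
    simp only [f, kf]
    rw [max_eq_right (by rw [hm]; linarith)]
    have : m - s > 0 := by rw [hm]; linarith
    positivity⟩
  have hG0 : G ≠ 0 := hne0 g hg ⟨t, ht, by
    simp only [g, kg]
    rw [max_eq_right (by rw [hm]; linarith)]
    have : t - m > 0 := by rw [hm]; linarith
    have : t > 0 := by linarith
    positivity⟩
  obtain ⟨y, hy⟩ := hP F hFJ G hGJ hF0 hG0
  -- bounds
  have hb : ∀ (k : ℝ → ℝ), Continuous k → (∀ r ∈ spectrum ℝ c, |k r| ≤ m + ‖c‖) →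
      cfc (fun r => r * k r) c * cfc (fun r => r * k r) c ≤ (‖c‖ * (m + ‖c‖) ^ 2) • c := by
    intro k hk hkb
    have hk2 : Continuous fun r => r * k r := by fun_prop
    rw [← cfc_mul _ _ c hk2.continuousOn hk2.continuousOn]
    have h1 : (‖c‖ * (m + ‖c‖) ^ 2) • c = cfc (fun r => (‖c‖ * (m + ‖c‖) ^ 2) * r) c := by
      rw [cfc_const_mul (‖c‖ * (m + ‖c‖) ^ 2) (fun r => r) c (by fun_prop), cfc_id' ℝ c]
    rw [h1]
    refine cfc_mono ?_ (hk2.mul hk2).continuousOn (by fun_prop)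
    intro r hr
    have hr0 : 0 ≤ r := spectrum_nonneg_of_nonneg hc0 hr
    have hr1 : r ≤ ‖c‖ := by
      have := spectrum.norm_le_norm_of_mem hr
      rw [Real.norm_eq_abs] at this
      exact (le_abs_self r).trans this
    have h2 : k r ^ 2 ≤ (m + ‖c‖) ^ 2 := by
      rw [← sq_abs]
      exact pow_le_pow_left₀ (abs_nonneg _) (hkb r hr) 2
    calc r * k r * (r * k r) = (r * k r ^ 2) * r := by ring
      _ ≤ (‖c‖ * (m + ‖c‖) ^ 2) * r := by
        apply mul_le_mul_of_nonneg_right _ hr0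
        exact mul_le_mul hr1 h2 (sq_nonneg _) (norm_nonneg _)
  have hm0 : 0 ≤ m := by rw [hm]; linarith
  have hbf : F * F ≤ (‖c‖ * (m + ‖c‖) ^ 2) • c := hb kf hkf (by
    intro r hr
    have hr0 : 0 ≤ r := spectrum_nonneg_of_nonneg hc0 hr
    simp only [kf]
    rw [abs_of_nonneg (le_max_left _ _)]
    exact max_le (by positivity) (by linarith [norm_nonneg c]))
  have hbg : G * G ≤ (‖c‖ * (m + ‖c‖) ^ 2) • c := hb kg hkg (by
    intro r hr
    have hr1 : r ≤ ‖c‖ := by
      have := spectrum.norm_le_norm_of_mem hr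
      rw [Real.norm_eq_abs] at this
      exact (le_abs_self r).trans this
    simp only [kg]
    rw [abs_of_nonneg (le_max_left _ _)]
    exact max_le (by positivity) (by linarith))
  set C : ℝ := ‖c‖ * (m + ‖c‖) ^ 2 with hC
  have hC0 : 0 ≤ C := by positivity
  let w1 : A := y * (G * G) * star y
  let w2 : A := star y * (F * F) * y
  have hw1 : IsSelfAdjoint w1 := by
    show star (y * (G * G) * star y) = y * (G * G) * star y
    simp only [star_mul, star_star, hGs.star_eq, mul_assoc]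
  have hw2 : IsSelfAdjoint w2 := by
    show star (star y * (F * F) * y) = star y * (F * F) * y
    simp only [star_mul, star_star, hFs.star_eq, mul_assoc]
  have hFF : 0 ≤ F * F := by
    have := star_mul_self_nonneg F
    rwa [hFs.star_eq] at this
  have hGG : 0 ≤ G * G := by
    have := star_mul_self_nonneg G
    rwa [hGs.star_eq] at this
  refine ⟨F * y * G, (‖w1‖ + ‖w2‖ + 1) * (C + 1), by positivity, hy, ?_, ?_, ?_⟩
  · calc F * y * G * (F * y * G) = F * y * (G * F) * y * G := by simp only [mul_assoc]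
      _ = 0 := by rw [hGF]; simp
  · have e : star (F * y * G) * (F * y * G) = star G * w2 * G := by
      simp only [star_mul, hFs.star_eq, hGs.star_eq, w2, mul_assoc]
    rw [e]
    calc star G * w2 * G ≤ ‖w2‖ • (star G * G) :=
          CStarAlgebra.star_left_conjugate_le_norm_smul hw2
      _ = ‖w2‖ • (G * G) := by rw [hGs.star_eq]
      _ ≤ ‖w2‖ • (C • c) := smul_le_smul_of_nonneg_left hbg (norm_nonneg _)
      _ = (‖w2‖ * C) • c := by rw [smul_smul]
      _ ≤ _ := smul_le_smul_of_nonneg_right (by nlinarith [norm_nonneg w1, norm_nonneg w2]) hc0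
  · have e : F * y * G * star (F * y * G) = star F * w1 * F := by
      simp only [star_mul, hFs.star_eq, hGs.star_eq, w1, mul_assoc]
    rw [e]
    calc star F * w1 * F ≤ ‖w1‖ • (star F * F) :=
          CStarAlgebra.star_left_conjugate_le_norm_smul hw1
      _ = ‖w1‖ • (F * F) := by rw [hFs.star_eq]
      _ ≤ ‖w1‖ • (C • c) := smul_le_smul_of_nonneg_left hbf (norm_nonneg _)
      _ = (‖w1‖ * C) • c := by rw [smul_smul]
      _ ≤ _ := smul_le_smul_of_nonneg_right (by nlinarith [norm_nonneg w1, norm_nonneg w2]) hc0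

theorem one_pt [Nontrivial A] (c : A) (hc0 : 0 ≤ c)
    (h : ¬ ∃ s t : ℝ, s ∈ spectrum ℝ c ∧ t ∈ spectrum ℝ c ∧ 0 < s ∧ s < t) :
    c * c = ‖c‖ • c := by
  have hsa : IsSelfAdjoint c := IsSelfAdjoint.of_nonneg hc0
  have hn : ‖c‖ ∈ spectrum ℝ c := CStarAlgebra.norm_mem_spectrum_of_nonneg hc0
  have h1 : c * c = cfc (fun r : ℝ => r * r) c := by
    rw [cfc_mul (fun r => r) (fun r => r) c (by fun_prop) (by fun_prop), cfc_id' ℝ c]
  have h2 : ‖c‖ • c = cfc (fun r : ℝ => ‖c‖ * r) c := by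
    rw [cfc_const_mul ‖c‖ (fun r => r) c (by fun_prop), cfc_id' ℝ c]
  rw [h1, h2]
  refine cfc_congr ?_
  intro r hr
  have hr0 : 0 ≤ r := spectrum_nonneg_of_nonneg hc0 hr
  have hr1 : r ≤ ‖c‖ := by
    have := spectrum.norm_le_norm_of_mem hr
    rw [Real.norm_eq_abs] at this
    exact (le_abs_self r).trans this
  show r * r = ‖c‖ * r
  rcases hr0.eq_or_lt with h0 | h0
  · rw [← h0]; ring
  · rcases hr1.eq_or_lt with h1 | h1
    · rw [h1]
    · exact absurd ⟨r, ‖c‖, hr, hn, h0, h1⟩ h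

theorem main (J : Set A) (hJ : Idl J)
    (hN : ¬ ∃ p ∈ J, p ≠ 0 ∧ star p = p ∧ p * p = p ∧ ∀ a : A, ∃ c : ℂ, p * a * p = c • p)
    (hP : Prm J) (c : A) (hc : c ∈ J) (hc0 : 0 ≤ c) (hcne : c ≠ 0) :
    ∃ (x : A) (M : ℝ), 0 < M ∧ x ≠ 0 ∧ x * x = 0 ∧ star x * x ≤ M • c ∧ x * star x ≤ M • c := by
  have hnt : Nontrivial A := ⟨c, 0, hcne⟩
  by_cases h2 : ∃ s t : ℝ, s ∈ spectrum ℝ c ∧ t ∈ spectrum ℝ c ∧ 0 < s ∧ s < t
  · obtain ⟨s, t, hs, ht, h0, hst⟩ := h2
    exact two_pts J hJ hP c hc hc0 s t hs ht h0 hst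
  have hcc := one_pt c hc0 h2
  have hnc : 0 < ‖c‖ := norm_pos_iff.mpr hcne
  have hsmulJ : ∀ (r : ℝ) (x : A), x ∈ J → r • x ∈ J := by
    intro r x hx
    have := (hJ.2.2.1 x hx (r • (1 : A))).1
    rwa [smul_mul_assoc, one_mul] at this
  obtain ⟨p, hpd⟩ : ∃ p : A, p = ‖c‖⁻¹ • c := ⟨_, rfl⟩
  have hpJ : p ∈ J := by rw [hpd]; exact hsmulJ _ _ hc
  have hcp : c = ‖c‖ • p := by
    rw [hpd, smul_smul, mul_inv_cancel₀ hnc.ne', one_smul]
  have hp0 : p ≠ 0 := by
    intro h
    apply hcne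
    rw [hcp, h, smul_zero]
  have hcs : IsSelfAdjoint c := IsSelfAdjoint.of_nonneg hc0
  have hps : star p = p := by
    rw [hpd, star_smul, hcs.star_eq]
    simp
  have hpp : p * p = p := by
    rw [hpd, smul_mul_smul_comm, hcc, smul_smul]
    congr 1
    field_simp
  have hp_nonneg : 0 ≤ p := by
    have := star_mul_self_nonneg p
    rwa [hps, hpp] at this
  -- a self-adjoint element with `p b p` not a multiple of `p`
  obtain ⟨b, hbs, hb⟩ : ∃ b : A, IsSelfAdjoint b ∧ ∀ r : ℝ, p * b * p ≠ r • p := by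
    by_contra hcon
    push Not at hcon
    apply hN
    refine ⟨p, hpJ, hp0, hps, hpp, fun a => ?_⟩
    obtain ⟨r1, hr1⟩ := hcon (realPart a : A) (realPart a).2
    obtain ⟨r2, hr2⟩ := hcon (imaginaryPart a : A) (imaginaryPart a).2
    refine ⟨(r1 : ℂ) + Complex.I * (r2 : ℂ), ?_⟩
    have ha : a = (realPart a : A) + Complex.I • (imaginaryPart a : A) :=
      (realPart_add_I_smul_imaginaryPart a).symm
    calc p * a * p = p * ((realPart a : A) + Complex.I • (imaginaryPart a : A)) * p := by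
          rw [← ha]
      _ = p * (realPart a : A) * p + Complex.I • (p * (imaginaryPart a : A) * p) := by
          rw [mul_add, add_mul, mul_smul_comm, smul_mul_assoc]
      _ = r1 • p + Complex.I • (r2 • p) := by rw [hr1, hr2]
      _ = ((r1 : ℂ) + Complex.I * (r2 : ℂ)) • p := by
          rw [add_smul, mul_smul, Complex.coe_smul, Complex.coe_smul]
  set h : A := p * b * p with hh
  have hph : p * h = h := by rw [hh, ← mul_assoc, ← mul_assoc, hpp]
  have hhp : h * p = h := by rw [hh, mul_assoc, hpp]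
  have hhs : IsSelfAdjoint h := by
    show star (p * b * p) = p * b * p
    simp only [star_mul, hps, hbs.star_eq, mul_assoc]
  have hphp : p * h * p = h := by rw [hph, hhp]
  have hconj : ∀ w : A, 0 ≤ w → 0 ≤ p * w * p := by
    intro w hw
    have := star_left_conjugate_nonneg hw p
    rwa [hps] at this
  have hlow : 0 ≤ h + ‖h‖ • p := by
    have h1 : 0 ≤ h + ‖h‖ • (1 : A) := by
      have := IsSelfAdjoint.neg_algebraMap_norm_le_self hhs
      rw [Algebra.algebraMap_eq_smul_one] at this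
      rw [add_comm]
      exact neg_le_iff_add_nonneg'.mp this
    have h3 := hconj _ h1
    rwa [mul_add, add_mul, hphp, mul_smul_comm, smul_mul_assoc, mul_one, hpp] at h3
  have hup : h ≤ ‖h‖ • p := by
    have h1 : 0 ≤ ‖h‖ • (1 : A) - h := by
      have := IsSelfAdjoint.le_algebraMap_norm_self hhs
      rw [Algebra.algebraMap_eq_smul_one] at this
      exact sub_nonneg.mpr this
    have h3 := hconj _ h1
    rw [mul_sub, sub_mul, hphp, mul_smul_comm, smul_mul_assoc, mul_one, hpp] at h3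
    exact sub_nonneg.mp h3
  set k : A := h + (‖h‖ + 1) • p with hk
  have hkp : p ≤ k := by
    have : k = (h + ‖h‖ • p) + p := by rw [hk, add_smul, one_smul, add_assoc]
    rw [this]
    exact le_add_of_nonneg_left hlow
  have hk0 : 0 ≤ k := hp_nonneg.trans hkp
  have hkJ : k ∈ J := hJ.2.1 _ ((hJ.2.2.1 (p * b) ((hJ.2.2.1 p hpJ b).2) p).2) _ (hsmulJ _ _ hpJ)
  have hkc : k ≤ ((2 * ‖h‖ + 1) / ‖c‖) • c := by
    have h1 : ((2 * ‖h‖ + 1) / ‖c‖) • c = (2 * ‖h‖ + 1) • p := by
      rw [hpd, smul_smul, div_eq_mul_inv]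
    rw [h1, hk]
    have h3 : (2 * ‖h‖ + 1) • p = ‖h‖ • p + (‖h‖ + 1) • p := by
      rw [← add_smul]; congr 1; ring
    rw [h3]
    exact add_le_add_left hup _
  by_cases h3 : ∃ s t : ℝ, s ∈ spectrum ℝ k ∧ t ∈ spectrum ℝ k ∧ 0 < s ∧ s < t
  · obtain ⟨s, t, hs, ht, h0, hst⟩ := h3
    obtain ⟨x, M, hM, hx, hxx, h4, h5⟩ := two_pts J hJ hP k hkJ hk0 s t hs ht h0 hst
    have h6 : M • k ≤ (M * ((2 * ‖h‖ + 1) / ‖c‖)) • c := by
      rw [← smul_smul]
      exact smul_le_smul_of_nonneg_left hkc hM.le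
    exact ⟨x, M * ((2 * ‖h‖ + 1) / ‖c‖), by positivity, hx, hxx, h4.trans h6, h5.trans h6⟩
  · exfalso
    have hkk := one_pt k hk0 h3
    have hkne : k ≠ 0 := by
      intro h0
      rw [h0] at hkp
      exact hp0 (le_antisymm hkp hp_nonneg)
    have hnk : 0 < ‖k‖ := norm_pos_iff.mpr hkne
    have hpk : p * k = k := by rw [hk, mul_add, hph, mul_smul_comm, hpp]
    have hkp' : k * p = k := by rw [hk, add_mul, hhp, smul_mul_assoc, hpp]
    obtain ⟨q, hqd⟩ : ∃ q : A, q = p - ‖k‖⁻¹ • k := ⟨_, rfl⟩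
    have hks : IsSelfAdjoint k := IsSelfAdjoint.of_nonneg hk0
    have hqs : star q = q := by
      rw [hqd, star_sub, star_smul, hps, hks.star_eq]
      simp
    have hkk' : (‖k‖⁻¹ • k) * (‖k‖⁻¹ • k) = ‖k‖⁻¹ • k := by
      rw [smul_mul_smul_comm, hkk, smul_smul]
      congr 1
      field_simp
    have hqk : q * k = 0 := by
      rw [hqd, sub_mul, hpk, smul_mul_assoc, hkk, smul_smul, inv_mul_cancel₀ hnk.ne', one_smul, sub_self]
    have hqp : q * p = q := by
      rw [hqd, sub_mul, hpp, smul_mul_assoc, hkp']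
    have hqq : q * q = q := by
      have : q * (p - ‖k‖⁻¹ • k) = q := by
        rw [mul_sub, hqp, mul_smul_comm, hqk, smul_zero, sub_zero]
      rwa [← hqd] at this
    have h7 : q * p * q ≤ q * k * q := by
      have h8 : 0 ≤ k - p := sub_nonneg.mpr hkp
      have := star_left_conjugate_nonneg h8 q
      rw [hqs, mul_sub, sub_mul] at this
      exact sub_nonneg.mp this
    rw [hqp, hqq, hqk, zero_mul] at h7
    have h9 : 0 ≤ q := by
      have := star_mul_self_nonneg q
      rwa [hqs, hqq] at this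
    have hq0 : q = 0 := le_antisymm h7 h9
    have hpk2 : p = ‖k‖⁻¹ • k := sub_eq_zero.mp (hqd ▸ hq0)
    have hk2 : k = ‖k‖ • p := by
      rw [hpk2, smul_smul, mul_inv_cancel₀ hnk.ne', one_smul]
    apply hb (‖k‖ - (‖h‖ + 1))
    rw [sub_smul, ← hk2, hk]
    exact (add_sub_cancel_right _ _).symm

end Pool.Agent.H968.NJ
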