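import Pool.Agent.H327R4.NJ.Stubs
import Pool.Agent.H968.NJ.NIL

set_option autoImplicit false

namespace Pool.Agent.H327R4.NJ

universe u

theorem t_NILJ2 : StNILJ.{u} := by
  intro A _ _ _ J hJ hN hP c hc hc0 hcne
  exact Pool.Agent.H968.NJ.main J hJ hN hP c hc hc0 hcne

end Pool.Agent.H327R4.NJ
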